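import Pool.Agent.U325.FO.Main

set_option autoImplicit false

/-!
# Splay trees: `O(log n)` orders of the keys suffice for key-independent optimality

`Tr`, `keys`, `costSplay` are those of `Pool.Agent.H581R2.SplayDef`; `optAny K Y`
(`Pool.Agent.TH49.Spl.Defs`) is the least cost of an execution for the requests `Y`, over all
initial search trees with the keys `K`; `rel σ X` (`Pool.Agent.N724.TW.Stm`) is the request sequence
`X` in which the keys are renamed by the permutation `σ`.

Idea of the proof. For each `j` the requests which miss the cache of the `2 ^ j` most recently used
keys are counted; the working set bound is the sum of these numbers of misses. The requests are cut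
into blocks with `2 ^ (j - 1)` misses of the level `j - 1`. In one block the keys missed at the level
`j` are distinct and stay in the cache, so the sets of cached keys at these misses are described by
`O(2 ^ j)` keys (an initial set and the exchanges), whatever the length of the block; and the number of
changes of side at the nodes of one level of a dyadic tree which these misses cause under a random
labelling of the keys changes by at most two if one label is changed. A bounded difference inequality
and a union bound over these descriptions give a family of `O(log n)` labellings which is good for
all request sequences.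
-/

namespace Pool.Agent.Results.MP_c42954_lc.FewOrders

open Pool.Agent.H581R2.Splay Pool.Agent.TH49.Spl Pool.Agent.N724.TW

open Classical in
/-- Let `D ≥ 1` and `n ≥ 2`. There are `N ≤ 5000000 D log₂ n` permutations `σ i` of the keys
`0, ..., n - 1` such that for EVERY request sequence `X` of these keys, of any length, for all but at
most `N / D` of the indices `i`: for all permutations `ρ` of the keys and all initial trees `T` with
these keys, the cost of splaying `rel ρ X` from `T` is at most
`(1700 + 6 log₂ D) OPT(rel (σ i) X) + 6200 n log₂ n`, where OPT may choose its initial tree; and if
every key is requested in `X` then it is at most `(28600 + 14 log₂ D) OPT(rel (σ i) X)`, with no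
additive term. -/
theorem result (D n : ℕ) (hD : 1 ≤ D) (hn : 2 ≤ n) :
    ∃ (N : ℕ) (σ : Fin N → Equiv.Perm (Fin n)), 1 ≤ N ∧
      (N : ℝ) ≤ 5000000 * D * Real.logb 2 n ∧
      ∀ X : List (Fin n), D * (Finset.univ.filter fun i : Fin N =>
        ¬ ∀ (T : Tr) (ρ : Equiv.Perm (Fin n)), keys T = List.range n →
          (costSplay T (rel ρ X) : ℝ) ≤ (1700 + 6 * Real.logb 2 D) *
            optAny (List.range n) (rel (σ i) X) + 6200 * (n * Real.logb 2 n) ∧
          ((∀ x : Fin n, x ∈ X) → (costSplay T (rel ρ X) : ℝ) ≤ (28600 + 14 * Real.logb 2 D) *
            optAny (List.range n) (rel (σ i) X))).card ≤ N :=
  Pool.Agent.U325.FO.main D n hD hn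

end Pool.Agent.Results.MP_c42954_lc.FewOrders
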