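import Pool.Agent.U195.SM.Up

/-!
# Splay trees are dynamically optimal for Markovian requests with a spectral gap

`Tr`, `keys`, `IsBST`, `dep`, `splay`, `costSplay` are those of `Pool.Agent.H581R2.SplayDef`; a request
costs one plus the depth of the key. `optAny K Y` (`Pool.Agent.TH49.Spl.Defs`) is the least cost of an
execution for the requests `Y` over all initial trees with the keys `K`; a rotation anywhere costs one.

Let `X_1, …, X_m` be a stationary Markov chain on any finite set `V` of states, and let the requests be
`κ (X_1), …, κ (X_m)`, where `κ` is an arbitrary map from the states to the keys (a hidden Markov
model). Suppose that the transition matrix contracts the functions of mean zero in `L²(π)` by a factor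
`λ < 1`. Then the mean cost of splaying, from every initial tree, is at most `2.1 · 10⁷ / (1 - λ)⁴` times
the mean cost of the optimum (which knows the future and may choose its initial tree), plus
`7 n log₂ (2 n)`.

Examples: independent requests (`λ = 0`), and the random walk on a `d`-regular expander graph whose
vertices are labelled by the keys in an arbitrary way. In the last example only `log₂ d = O(1)` random
bits are used per request, and the order of the requests is as simple as the adversary likes; so
arguments with entropies of request sequences or of conditional distributions give only the trivial
bound `OPT ≥ c m`, and the optimum is in fact of order `m log n` (see `opt_ent`).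

Proof. The interleave bound is used with a scheme of splits which is balanced for the distribution of
the labels. At a split of an interval of probability `p` into parts of comparable probabilities the
number of pairs of visits to the left and, between `1/(2p)` and `1/p` steps later, to the right part
has mean of order `p m`. Such a pair contains a change from the left to the right, but many pairs may
contain the same change. The numbers of visits around a change are controlled by fourth moments of the
numbers of visits, by means of the norms of the operators `1_I P^g 1_I`. So the mean number of changes is
at least `c (1 - λ)⁴ p m`, if `p` is small enough, and the sum over the splits is at least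
`c (1 - λ)⁴ m H - …`, where `H` is the entropy of the distribution of the labels. The cost of splaying is
`O(m (1 + H) + n log n)` (static optimality).
-/

set_option autoImplicit false

namespace Pool.Agent.Results.MP_c42954_lc.MarkovRequests

open Pool.Agent.H581R2.Splay Pool.Agent.TH49.Spl Pool.Agent.U195.SM

/-- `Gap π P lam`: `P` is a Markov chain on the finite set `V` with stationary distribution `π`, which
contracts the functions `f` with `∑ π f = 0` by the factor `lam < 1` in `L²(π)`. `expect P m π F`: the
mean of `F` over the sequences of the first `m` states `X` of the stationary chain. The key `κ v` is
requested in the state `v`. -/
theorem result (V : Type) [Fintype V] (π : V → ℝ) (P : V → V → ℝ) (lam : ℝ) (h : Gap π P lam)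
    (T : Tr) (hT : IsBST T) (κ : V → ℕ) (hκ : ∀ v, κ v ∈ keys T) (m : ℕ) :
    expect P m π (fun X => (costSplay T (X.map κ) : ℝ)) ≤
      21000000 / (1 - lam) ^ 4 * expect P m π (fun X => (optAny (keys T) (X.map κ) : ℝ)) +
        7 * ((keys T).length * Real.logb 2 (2 * (keys T).length)) :=
  main h hT hκ m

end Pool.Agent.Results.MP_c42954_lc.MarkovRequests
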