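import Pool.Agent.U325.ON.Main

set_option autoImplicit false

/-!
# Splay trees: key-independent optimality needs `Ω(log n)` orders of the keys

`Tr`, `keys`, `costSplay` are those of `Pool.Agent.H581R2.SplayDef`; `optAny K Y`
(`Pool.Agent.TH49.Spl.Defs`) is the least cost of an execution for the requests `Y`, over all
initial search trees with the keys `K`; `rel σ X` (`Pool.Agent.N724.TW.Stm`) is the request sequence
`X` in which the keys are renamed by the permutation `σ`.

Idea of the proof. Any `N` linear orders of `n` keys agree with one common hierarchy on `2 ^ L`
keys, if `2 ^ ((N + 1) L) ≤ n`: iterated splitting at medians gives a full binary tree with these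
keys as leaves such that in every one of the orders, at every node of the tree, the keys on one side
are all below the keys on the other side (on which side they are depends on the order and on the
node). The keys are requested in the order of the leaves, again and again. In each of the orders a
pointer can follow the requests in a static search tree with less than four moves per request;
each move is simulated by at most two rotations, if the nearest ancestors of the pointer are kept next
to the root. On the other hand, all requests have large working set numbers, so that they are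
expensive in a random order.
-/

namespace Pool.Agent.Results.MP_c42954_lc.OrdersNeeded

open Pool.Agent.H581R2.Splay Pool.Agent.TH49.Spl Pool.Agent.N724.TW

/-- (1) Let `σ 1, ..., σ N` be ANY permutations of `n` keys and `2 ^ ((N + 1) L) ≤ n`. There is a
list `Y` of `2 ^ L` different keys such that for the sequence `X` consisting of `M` copies of `Y`,
for every `M`: the optimal cost of `rel (σ i) X` is at most `9 |X|` for all `i` at once, but there is a
permutation `ρ` such that the optimal cost of `rel ρ X` is at least `((L - 3) |X| - 256 n) / 64` and
the cost of splaying `rel ρ X` from any tree `T` with these keys is at least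
`((L - 3) |X| - 256 n) / 128`.

(2) Therefore, if for every request sequence `X` there is an `i` such that the cost of splaying
`rel ρ X` from `T` is at most `C OPT(rel (σ i) X) + A` for all `ρ` and `T`, then
`log₂ n ≤ (N + 1) (1152 C + 4)`. -/
theorem result :
    (∀ (n N L : ℕ) (σ : Fin N → Equiv.Perm (Fin n)), 2 ^ ((N + 1) * L) ≤ n →
      ∃ Y : List (Fin n), Y.Nodup ∧ Y.length = 2 ^ L ∧ ∀ M : ℕ,
        (∀ i, optAny (List.range n) (rel (σ i) (List.replicate M Y).flatten) ≤ 9 * (M * 2 ^ L)) ∧
        ∃ ρ : Equiv.Perm (Fin n),
          ((L : ℝ) - 3) * (M * 2 ^ L) ≤
            64 * optAny (List.range n) (rel ρ (List.replicate M Y).flatten) + 256 * n ∧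
          ∀ T : Tr, keys T = List.range n → ((L : ℝ) - 3) * (M * 2 ^ L) ≤
            128 * costSplay T (rel ρ (List.replicate M Y).flatten) + 256 * n) ∧
    (∀ (n N : ℕ), 1 ≤ n → ∀ (σ : Fin N → Equiv.Perm (Fin n)) (C A : ℝ), 0 ≤ C →
      (∀ X : List (Fin n), ∃ i, ∀ (T : Tr) (ρ : Equiv.Perm (Fin n)), keys T = List.range n →
        (costSplay T (rel ρ X) : ℝ) ≤ C * optAny (List.range n) (rel (σ i) X) + A) →
      Real.logb 2 n ≤ (N + 1) * (1152 * C + 4)) :=
  ⟨fun n N L σ h => Pool.Agent.U325.ON.main n N L σ h,
    fun n N hn σ C A hC h => Pool.Agent.U325.ON.needed n N hn σ C A hC h⟩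

end Pool.Agent.Results.MP_c42954_lc.OrdersNeeded
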